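import Pool.Agent.E8helper32.SB.Stm

/-!
# Bessel functions: derivative, recurrence, continuity in the order
-/

set_option autoImplicit false

open Metric Set Filter Topology

namespace Pool.Agent.E8helper41.SB

open Pool.Agent.E8helper32.SB

/-- the terms of the series -/
noncomputable def tm (μ k : ℝ) (j : ℕ) : ℝ :=
  (-k) ^ j / ((j.factorial : ℝ) * ∏ i ∈ Finset.range j, (μ + i + 1))

lemma Bf_eq (μ k : ℝ) : Bf μ k = ∑' j, tm μ k j := rfl

lemma tm_zero (μ k : ℝ) : tm μ k 0 = 1 := by simp [tm]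

lemma prod_succ' (μ : ℝ) (j : ℕ) : ∏ i ∈ Finset.range (j + 1), (μ + i + 1) =
    (μ + 1) * ∏ i ∈ Finset.range j, (μ + 1 + i + 1) := by
  rw [Finset.prod_range_succ', mul_comm]
  congr 1
  · simp
  · refine Finset.prod_congr rfl fun i _ => ?_
    push_cast
    ring

lemma tm_succ (μ k : ℝ) (j : ℕ) :
    tm μ k (j + 1) = tm μ k j * (-k / (((j : ℝ) + 1) * (μ + j + 1))) := by
  rw [tm, tm, Finset.prod_range_succ, Nat.factorial_succ, pow_succ, div_mul_div_comm]
  push_cast
  congr 1
  ring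

lemma summable_tm (μ k : ℝ) : Summable (tm μ k) := by
  refine summable_of_ratio_norm_eventually_le (r := 1 / 2) (by norm_num) ?_
  have h1 : ∀ᶠ n : ℕ in atTop, 1 + |μ| + 2 * |k| ≤ (n : ℝ) :=
    tendsto_natCast_atTop_atTop.eventually_ge_atTop _
  filter_upwards [h1] with n hn
  rw [tm_succ, norm_mul, mul_comm]
  refine mul_le_mul_of_nonneg_right ?_ (norm_nonneg _)
  have hk := abs_nonneg k
  have hμ := abs_nonneg μ
  have hμ' := neg_abs_le μ
  have h2 : 1 ≤ μ + n + 1 := by linarith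
  have h3 : (0 : ℝ) < n + 1 := by linarith
  rw [Real.norm_eq_abs, abs_div, abs_neg, abs_mul, abs_of_pos h3,
    abs_of_pos (lt_of_lt_of_le one_pos h2), div_le_iff₀ (by positivity)]
  nlinarith

theorem t_BREC : S_BREC := by
  intro μ k hμ
  have h0 : μ + 1 ≠ 0 := by simpa using hμ 0
  have h1 : μ + 2 ≠ 0 := by
    have := hμ 1
    intro h
    apply this
    push_cast
    linarith
  rw [Bf_eq, Bf_eq, Bf_eq, (summable_tm μ k).tsum_eq_zero_add,
    (summable_tm (μ + 1) k).tsum_eq_zero_add, tm_zero, tm_zero, add_sub_assoc, ← tsum_mul_left,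
    ← Summable.tsum_sub ((summable_nat_add_iff 1).2 (summable_tm (μ + 1) k))
      ((summable_tm (μ + 2) k).mul_left _)]
  congr 1
  refine tsum_congr fun j => ?_
  rw [tm, tm, tm, prod_succ' μ j, prod_succ' (μ + 1) j]
  have e1 : ∏ i ∈ Finset.range j, (μ + 1 + 1 + (i : ℝ) + 1) =
      ∏ i ∈ Finset.range j, (μ + 2 + (i : ℝ) + 1) :=
    Finset.prod_congr rfl fun i _ => by ring
  have e2 : (μ + 1 + 1) * ∏ i ∈ Finset.range j, (μ + 1 + 1 + (i : ℝ) + 1) =
      (∏ i ∈ Finset.range j, (μ + 1 + (i : ℝ) + 1)) * (μ + 1 + j + 1) := by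
    rw [← prod_succ' (μ + 1) j, Finset.prod_range_succ]
  have hP : ∏ i ∈ Finset.range j, (μ + 1 + (i : ℝ) + 1) ≠ 0 := by
    refine Finset.prod_ne_zero_iff.2 fun i _ => ?_
    have := hμ (i + 1)
    intro h
    apply this
    push_cast
    linarith
  have hQ : ∏ i ∈ Finset.range j, (μ + 2 + (i : ℝ) + 1) ≠ 0 := by
    refine Finset.prod_ne_zero_iff.2 fun i _ => ?_
    have := hμ (i + 2)
    intro h
    apply this
    push_cast
    linarith
  have hj : μ + 1 + (j : ℝ) + 1 ≠ 0 := by
    have := hμ (j + 1)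
    intro h
    apply this
    push_cast
    linarith
  rw [e1] at e2 ⊢
  have hf : ((j + 1).factorial : ℝ) = (j + 1) * (j.factorial : ℝ) := by
    rw [Nat.factorial_succ]; push_cast; ring
  have hf0 : (j.factorial : ℝ) ≠ 0 := by exact_mod_cast Nat.factorial_ne_zero j
  have hj1 : (j : ℝ) + 1 ≠ 0 := by positivity
  have h2' : μ + 1 + 1 ≠ 0 := by intro h; apply h1; linarith
  have key : ∏ i ∈ Finset.range j, (μ + 2 + (i : ℝ) + 1) =
      (∏ i ∈ Finset.range j, (μ + 1 + (i : ℝ) + 1)) * (μ + 1 + j + 1) / (μ + 1 + 1) := by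
    rw [eq_div_iff h2', ← e2]; ring
  rw [hf, key]
  field_simp
  ring

theorem t_BDER : S_BDER := by
  intro μ k hμ
  have hμ0 : μ + 1 ≠ 0 := by linarith
  have hpos : ∀ n : ℕ, 0 < ∏ i ∈ Finset.range n, (μ + i + 1) := fun n =>
    Finset.prod_pos fun i _ => by
      have : (0 : ℝ) ≤ i := Nat.cast_nonneg i
      linarith
  set R : ℝ := |k| + 1 with hR
  have hR0 : 0 < R := by positivity
  let g' : ℕ → ℝ → ℝ := fun n y =>
    (-((n : ℝ) * (-y) ^ (n - 1))) / ((n.factorial : ℝ) * ∏ i ∈ Finset.range n, (μ + i + 1))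
  let u : ℕ → ℝ := fun n =>
    ((n : ℝ) * R ^ (n - 1)) / ((n.factorial : ℝ) * ∏ i ∈ Finset.range n, (μ + i + 1))
  have hsucc : ∀ (n : ℕ) (y : ℝ), ((((n + 1 : ℕ) : ℝ) * (-y) ^ (n + 1 - 1))) /
      (((n + 1).factorial : ℝ) * ∏ i ∈ Finset.range (n + 1), (μ + i + 1)) =
      tm (μ + 1) y n / (μ + 1) := by
    intro n y
    rw [prod_succ', Nat.factorial_succ, tm, Nat.add_sub_cancel]
    have hf0 : (n.factorial : ℝ) ≠ 0 := by exact_mod_cast Nat.factorial_ne_zero n
    have hn1 : (n : ℝ) + 1 ≠ 0 := by positivity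
    have hP : ∏ i ∈ Finset.range n, (μ + 1 + (i : ℝ) + 1) ≠ 0 :=
      (Finset.prod_pos fun i _ => by
        have : (0 : ℝ) ≤ i := Nat.cast_nonneg i
        linarith).ne'
    push_cast
    field_simp
  have hu : Summable u := by
    rw [← summable_nat_add_iff 1]
    have h := (summable_tm (μ + 1) (-R)).div_const (μ + 1)
    refine h.congr fun n => ?_
    have := hsucc n (-R)
    rw [neg_neg] at this
    exact this.symm
  have hder : ∀ n y, y ∈ ball (0 : ℝ) R → HasDerivAt (fun z => tm μ z n) (g' n y) y := by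
    intro n y _
    have h1 : HasDerivAt (fun z : ℝ => (-z) ^ n) ((n : ℝ) * (-y) ^ (n - 1) * -1) y :=
      (hasDerivAt_neg y).pow n
    have h2 := h1.div_const ((n.factorial : ℝ) * ∏ i ∈ Finset.range n, (μ + i + 1))
    have e : g' n y = (n : ℝ) * (-y) ^ (n - 1) * -1 /
        ((n.factorial : ℝ) * ∏ i ∈ Finset.range n, (μ + i + 1)) := by
      simp only [g']
      ring
    rw [e]
    exact h2
  have hbd : ∀ n y, y ∈ ball (0 : ℝ) R → ‖g' n y‖ ≤ u n := by
    intro n y hy
    have hy' : |y| ≤ R := by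
      have := mem_ball_zero_iff.1 hy
      rw [Real.norm_eq_abs] at this
      exact this.le
    have hd : 0 < (n.factorial : ℝ) * ∏ i ∈ Finset.range n, (μ + i + 1) :=
      mul_pos (by exact_mod_cast Nat.factorial_pos n) (hpos n)
    simp only [g', u]
    rw [Real.norm_eq_abs, abs_div, abs_of_pos hd, abs_neg, abs_mul, Nat.abs_cast, abs_pow, abs_neg]
    gcongr
  have hk : k ∈ ball (0 : ℝ) R := by
    rw [mem_ball_zero_iff, Real.norm_eq_abs]
    linarith
  have h := hasDerivAt_tsum_of_isPreconnected hu isOpen_ball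
    (convex_ball (0 : ℝ) R).isPreconnected hder hbd hk (summable_tm μ k) hk
  have hs : Summable fun n => g' n k := Summable.of_norm_bounded hu fun n => hbd n k hk
  have e0 : ∑' n, g' n k = -(Bf (μ + 1) k / (μ + 1)) := by
    rw [hs.tsum_eq_zero_add]
    have z : g' 0 k = 0 := by simp [g']
    rw [z, zero_add, Bf_eq, ← tsum_div_const, ← tsum_neg]
    refine tsum_congr fun n => ?_
    rw [← hsucc n k]
    simp only [g']
    rw [neg_div]
  rw [← e0]
  exact h

theorem t_BCONT : S_BCONT := by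
  intro k
  have hge : ∀ μ ∈ Icc (0 : ℝ) 2, ∀ n : ℕ, 1 ≤ ∏ i ∈ Finset.range n, (μ + (i : ℝ) + 1) := by
    intro μ hμ n
    have h := Finset.prod_le_prod (s := Finset.range n) (f := fun _ => (1 : ℝ))
      (g := fun i : ℕ => μ + (i : ℝ) + 1) (fun _ _ => zero_le_one) fun i _ => by
        have : (0 : ℝ) ≤ i := Nat.cast_nonneg i
        have := hμ.1
        linarith
    simpa using h
  have h : ContinuousOn (fun μ => ∑' j : ℕ, tm μ k j) (Icc 0 2) := by
    refine continuousOn_tsum (u := fun n : ℕ => |k| ^ n / (n.factorial : ℝ)) ?_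
      (Real.summable_pow_div_factorial |k|) ?_
    · intro n
      refine continuousOn_const.div (continuousOn_const.mul
        (continuous_finsetProd _ fun i _ => by fun_prop).continuousOn) ?_
      intro μ hμ
      have := hge μ hμ n
      have h1 : (0 : ℝ) < n.factorial := by exact_mod_cast Nat.factorial_pos n
      positivity
    · intro n μ hμ
      have h2 := hge μ hμ n
      have h1 : (0 : ℝ) < n.factorial := by exact_mod_cast Nat.factorial_pos n
      rw [tm, Real.norm_eq_abs, abs_div, abs_pow, abs_neg,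
        abs_of_pos (mul_pos h1 (lt_of_lt_of_le one_pos h2))]
      refine div_le_div_of_nonneg_left (by positivity) h1 ?_
      exact le_mul_of_one_le_right h1.le h2
  exact h

end Pool.Agent.E8helper41.SB
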